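import Pool.Agent.Q26.KP.CMain

/-!
# The conjecture C⁺ for the generic member and for one member of a family

`C`, `C₀` are `ℚ`-linear rigid symmetric monoidal categories in which the endomorphisms of the unit
are rational (e.g. `NChow(k)_ℚ`, `NChow(k₀)_ℚ`) and `R`, `R₀` symmetric monoidal functors to super
vector spaces. `M` is the geometric generic fibre and `M₀` a special fibre of a family of smooth proper
dg categories: the cohomologies of `M` and `M₀` are isomorphic, and each endomorphism of `M` has a
specialization.

1. `C⁺` holds for `M` if and only if it holds for `M₀` and the endomorphism which gives the even
projector of `M₀` is numerically equivalent to one which lifts to `M`; in other words, if and only if it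
is orthogonal to all endomorphisms of `M₀` which are orthogonal to those which lift to `M`. This is a
question about the traces of endomorphisms of `M₀`. Here the characteristics of `k` and `k₀` may be
different.
2. `C⁺` holds for `M` if and only if some endomorphism of `M₀` which lifts to `M` has the trace
`dim H(M₀)` and its square is numerically equivalent to the identity.
3. Suppose that `k₀` is algebraically closed, that the family lives over a variety over `k₀` and that the
family of the `A^op ⊗ A` has a smooth proper compactification `B` (for `A = perf X` it exists, after a
generically finite base change, by the theorem of de Jong). Then `C⁺` holds for `M` if and only if it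
holds for `M₀` and the even projector of `M₀` is numerically equivalent to the restriction of a class on
`B`; in other words, if and only if it is orthogonal to all endomorphisms of `M₀` whose images in
`K_0(B)` are numerically trivial. If `hom = num` holds for these images, e.g. if the noncommutative
conjecture D holds for `B`, then `C⁺` for `M` and `C⁺` for `M₀` are equivalent.

So the conjecture D for dg categories with a geometric compactification implies that `C⁺` does not
depend on the member of the family. For `M₀ = perf X₀`, `X₀` smooth and projective over the closure
`k₀` of a finite field, `C⁺` is the theorem of Katz and Messing: so in characteristic `p` the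
conjecture D over `k₀` implies `C⁺` for the smooth projective varieties over all fields, and the
conjecture `C⁺` for `X` is a question about intersection numbers of cycles over `k₀`.

Proof. If the liftable endomorphism `r` of `M₀` is numerically equivalent to the even projector `π`,
then `2 r - 1` has the super trace `dim H(M₀)` and its square is numerically equivalent to the identity; it
follows that the involution `2 π - 1` is a polynomial in `r`, and the same polynomial in an endomorphism
of `M` which specializes to `r` gives the involution of `M`.
-/

open CategoryTheory MonoidalCategory

universe v u w

namespace Pool.Agent.Results.MP_8f22fa_ag.EvenProjectorFromOneFibre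

open Pool.Agent.Q26.KP Pool.Agent.Y112.SR Q20.Cp

variable {C : Type u} [Category.{v} C] [Preadditive C] [Linear ℚ C] [MonoidalCategory C]
  [SymmetricCategory C] [RightRigidCategory C]
  {C₀ : Type u} [Category.{v} C₀] [Preadditive C₀] [Linear ℚ C₀] [MonoidalCategory C₀]
  [SymmetricCategory C₀] [RightRigidCategory C₀]
  {K : Type w} [Field K] {K₀ : Type w} [Field K₀]

/-- **The conjecture C⁺ in families.** -/
theorem result (hC : RationalUnit C) (hC₀ : RationalUnit C₀) (R : SuperRealisation C K)
    (R₀ : SuperRealisation C₀ K₀) (M : C) (M₀ : C₀) (S : Specialization R R₀ M M₀) :
    [R.CPlus M, R₀.CPlus M₀ ∧ EvenLifts S, R₀.CPlus M₀ ∧ EvenOrthogonal S,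
      InvolutionLifts S].TFAE ∧
    ∀ (B : C₀) (T : Compactification S B),
      [R.CPlus M, R₀.CPlus M₀ ∧ ExtendsTo T, R₀.CPlus M₀ ∧ OrthogonalTo T].TFAE ∧
      (HomEqNumIn T → (R.CPlus M ↔ R₀.CPlus M₀)) :=
  ⟨nc_tfae hC hC₀ S, fun _ T => ⟨comp_tfae hC hC₀ T, comp_homEqNum hC hC₀ T⟩⟩

end Pool.Agent.Results.MP_8f22fa_ag.EvenProjectorFromOneFibre
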