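import Pool.Agent.Q20.Cp.Stmt

/-!
# The sign conjecture `C⁺` is a numerical condition, and descends from `K` to `ℚ`

`C` is a `ℚ`-linear rigid symmetric monoidal category in which every endomorphism of the unit is a
rational multiple of the identity, with a symmetric monoidal additive functor to finite dimensional
super vector spaces over a field `K`, for example the category of noncommutative Chow motives with
periodic cyclic homology or topological periodic cyclic homology.
-/

set_option autoImplicit false

open CategoryTheory MonoidalCategory

namespace Pool.Agent.Results.MP_8f22fa_ag.NumericalDimension

open Pool.Agent.Y112.SR Q20.Cp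

universe v u w w'

theorem result {C : Type u} [Category.{v} C] [Preadditive C] [Linear ℚ C] [MonoidalCategory C]
    [SymmetricCategory C] [RightRigidCategory C] (hC : RationalUnit C)
    {K : Type w} [Field K] (R : SuperRealisation C K) (M : C) :
    List.TFAE [
      -- the sign conjecture, with rational coefficients
      R.CPlus M,
      -- the sign conjecture, with coefficients in `K`
      R.par M ∈ KAlg R M,
      -- some algebraic operator with coefficients in `K` separates the even and the odd part
      ∃ T ∈ KAlg R M, Separates R (M := M) T.hom,
      -- the dimension of the realisation is the numerical dimension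
      dimH R M = numDim M] ∧
    numDim M ≤ dimH R M ∧
    ∀ {K' : Type w'} [Field K'] (R' : SuperRealisation C K'), R.CPlus M →
      dimH R M ≤ dimH R' M ∧ (R'.CPlus M ↔ dimH R M = dimH R' M) := by
  refine ⟨main_tfae R hC M, numDim_le R hC M, fun R' h => ?_⟩
  have h1 : dimH R M = numDim M := (numDim_iff R hC M).mp h
  rw [h1]
  exact ⟨numDim_le R' hC M, (numDim_iff R' hC M).trans eq_comm⟩

end Pool.Agent.Results.MP_8f22fa_ag.NumericalDimension
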