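import Pool.Agent.Q57.NL.Num

/-!
# A gap for the numerical dimension of the tensor powers of a noncommutative motive

`C` is a `ℚ`-linear rigid symmetric monoidal category in which every endomorphism of the unit is a
rational multiple of the identity, with a symmetric monoidal additive functor `H` to finite
dimensional super vector spaces over a field `K`, for example the category of noncommutative Chow
motives with periodic cyclic homology (`p = 0`) or topological periodic cyclic homology (`p > 0`).

The numerical dimension `numDim M` of an object `M` is the largest natural number which is the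
(categorical) trace of an endomorphism `x` of `M` such that `x² - 1` is numerically trivial; it does
not depend on `H`. Let `b` be the dimension of `H(M)` and `superDim M` the dimension of the even part
minus the dimension of the odd part. Let `rankDist M` be the smallest rank of `π₊ - u`, where `π₊` is
the projector onto the even part of `H(M)`, and `u` is a `K`-linear combination of realisations of
endomorphisms of `M`. The theorem:

* `|superDim M| ≤ numDim M ≤ b - 2 rankDist M`;
* if the sign conjecture `C⁺` holds for `M`, then `numDim (M ^ n) = b ^ n` for all tensor powers;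
* if it fails, then `numDim (M ^ n) ≤ b ^ n (1 - 2 / (n + 1) ^ (b ^ 2))` for all `n ≥ 1`.

So `C⁺` holds for `M` as soon as ONE tensor power `M ^ n` has an endomorphism `x` such that `x² - 1`
is numerically trivial and the trace of `x` is larger than `b ^ n (1 - 2 / (n + 1) ^ (b ^ 2))`.

The proof: the operators given by the permutations of the factors of `M ^ n` span a semisimple algebra
of dimension at least `b ^ (2 n) / (n + 1) ^ (b ^ 2)`. If `π₊ - u` has a smaller rank than
`b ^ n / (n + 1) ^ (b ^ 2)`, then it is killed by an idempotent `e ≠ 0` of this algebra, and the partial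
traces of the conjugates of `e (2 π₊ - 1) = e (2 u - 1)` show that the sign conjecture holds for `M`.
-/

set_option autoImplicit false

open CategoryTheory MonoidalCategory

namespace Pool.Agent.Results.MP_8f22fa_ag.NumericalGap

open Pool.Agent.Y112.SR Pool.Agent.Y112.KD Q20.Cp Pool.Agent.Q57.NL

universe v u w

theorem result {C : Type u} [Category.{v} C] [Preadditive C] [Linear ℚ C] [MonoidalCategory C]
    [MonoidalPreadditive C] [MonoidalLinear ℚ C] [SymmetricCategory C] [RightRigidCategory C]
    (hC : RationalUnit C) {K : Type w} [Field K] (R : SuperRealisation C K) (M : C) :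
    (superDim R M).natAbs ≤ numDim M ∧
    numDim M + 2 * rankDist R M ≤ Q20.Cp.dimH R M ∧
    ((R.CPlus M ∧ ∀ n, numDim (tp M n) = Q20.Cp.dimH R M ^ n) ∨
      (¬ R.CPlus M ∧ ∀ n, 1 ≤ n →
        2 * Q20.Cp.dimH R M ^ n + (n + 1) ^ (Q20.Cp.dimH R M ^ 2) * numDim (tp M n) ≤
          (n + 1) ^ (Q20.Cp.dimH R M ^ 2) * Q20.Cp.dimH R M ^ n)) := by
  obtain ⟨h1, h2⟩ := num_bounds R hC M
  refine ⟨h1, h2, ?_⟩
  by_cases h : R.CPlus M
  · exact Or.inl ⟨h, num_of_cplus R hC h⟩
  · exact Or.inr ⟨h, fun n hn => num_gap R hC h hn⟩

end Pool.Agent.Results.MP_8f22fa_ag.NumericalGap
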