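import Pool.Agent.Q56.PC.YoungLaw

/-!
# One operator on one Schur functor decides the sign conjecture

`C` is a `ℚ`-linear rigid symmetric monoidal category in which every endomorphism of the unit is
rational, with a symmetric monoidal additive functor `H` to finite dimensional super vector spaces
over a field `K`, for example the category of noncommutative Chow motives with periodic cyclic
homology. Let `M` be an object and `e` an idempotent of the image of the group algebra of `S_n` in
the endomorphisms of `M ^ n`. The space `H(M ^ n)` is the direct sum of its subspaces of the tensors
with exactly `k` odd factors, and so is the image of `H(e)`. For a function `f` the operator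
`H(e) ≫ oddOp f` is `f k` on the `k`-th part of the image of `H(e)` and `0` on the kernel.

The sign conjecture `C⁺` for `M` is equivalent to the algebraicity (with coefficients in `K`) of ONE
such operator with a level of constant parity: for some `k₀` the `k₀`-th part is not zero, and the
nonzero parts on which the operator has the same value as there have the parity of `k₀`. It then
implies that ALL these operators with rational values are images of endomorphisms of `M ^ n`. For
instance, one nonzero part decides: the projector onto the tensors with exactly `k` odd factors in
the image of `H(e)`.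
-/

set_option autoImplicit false

open CategoryTheory Limits MonoidalCategory

namespace Pool.Agent.Results.MP_8f22fa_ag.OneLevelDecides

open Pool.Agent.Y112.SR Pool.Agent.Y112.KD Pool.Agent.Y112.SC Q20.Cp Q56.PC

universe v u w

/-- **One algebraic operator with a level of constant parity on one Schur functor decides the sign
conjecture.** -/
theorem result {C : Type u} [Category.{v} C] [Preadditive C] [Linear ℚ C] [MonoidalCategory C]
    [MonoidalPreadditive C] [MonoidalLinear ℚ C] [SymmetricCategory C] [RightRigidCategory C]
    {K : Type w} [Field K] (R : SuperRealisation C K) (hC : RationalUnit C) (M : C)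
    (h0 : ¬ IsZero (R.H.obj M)) : List.TFAE [
    R.CPlus M,
    ∀ (n : ℕ) (f : ℕ → ℚ), ∀ e ∈ Young M n, ∃ g : tp M n ⟶ tp M n,
      R.H.map g = R.H.map e ≫ oddOp R M n fun k => (f k : K),
    ∃ n ≥ 1, ∃ e ∈ Young M n, ∃ f : ℕ → K, R.H.map e ≫ oddOp R M n f ∈ KAlg R (tp M n) ∧
      ∃ k₀ ≤ n, R.H.map e ≫ EE R M n (k₀ : ℤ) ≠ 0 ∧
        ∀ k ≤ n, f k = f k₀ → R.H.map e ≫ EE R M n (k : ℤ) ≠ 0 → (Even k ↔ Even k₀)] :=
  young_tfae hC M h0

end Pool.Agent.Results.MP_8f22fa_ag.OneLevelDecides
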